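import Pool.Agent.H33.RM.Exc
import Pool.Agent.H34.RM.Rows2
import Pool.Agent.H92.RamseyC

/-!
ROW G of the three set theorem (MP_28724c_co): the induction on `k + l` and the root.
-/

set_option linter.unusedSectionVars false
set_option linter.unusedVariables false

open Finset

namespace Pool.Agent.H92.RM

open Pool.Agent.H92 Pool.Agent.H34.RM Pool.Agent.H33.RM

/-- conclusion of `LocalB` for fixed parameters -/
def LocalAt (a b c d q p L M e0 : ℝ) (D w0 : ℕ) : Prop :=
      ∀ (V : Type) [DecidableEq V] (G : SimpleGraph V) [DecidableRel G.Adj]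
        (X Y Z : Finset V) (nu ze : V → ℝ) (w w' : ℕ) (em em' : ℝ),
        w0 ≤ w → w0 ≤ w' → IsProb Y nu → IsProb Z ze →
        0 < em → em ≤ 1 → 0 < em' → em' ≤ 1 →
        Real.log (1 / em) ≤ e0 * w → Real.log (1 / em') ≤ e0 * w' →
        0 < SS G q p w w' X Y Z nu ze →
        (∀ nu' ze' : V → ℝ, IsProb Y nu' → IsProb Z ze' →
          PP G a b c d q p w w' X Y Z nu' ze' ≤ PP G a b c d q p w w' X Y Z nu ze) →
        (∑ x ∈ X, wt G q p w w' Y Z nu ze x * ((dR G Y nu x - q) / em) ^ 2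
          ≤ (1 + e0) * SS G q p w w' X Y Z nu ze) →
        (∑ x ∈ X, wt G q p w w' Y Z nu ze x * (em / (dR G Y nu x - q))
          ≤ (1 + e0) * SS G q p w w' X Y Z nu ze) →
        (∑ x ∈ X, wt G q p w w' Y Z nu ze x * ((dB G Z ze x - p) / em') ^ 2
          ≤ (1 + e0) * SS G q p w w' X Y Z nu ze) →
        (∑ x ∈ X, wt G q p w w' Y Z nu ze x * (em' / (dB G Z ze x - p))
          ≤ (1 + e0) * SS G q p w w' X Y Z nu ze) →
        (∀ x ∈ X, wt G q p w w' Y Z nu ze x * (((w : ℝ) + w') / (em * em')) ^ D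
          ≤ e0 * SS G q p w w' X Y Z nu ze) →
        (∀ x ∈ X, ∀ nu' ze' : V → ℝ, IsProb (rN G x Y) nu' → IsProb Z ze' →
          PP G a b c d q p w w' (rN G x X) (rN G x Y) Z nu' ze'
            ≤ Real.exp (-L) * PP G a b c d q p w w' X Y Z nu ze) →
        (∀ x ∈ X, ∀ nu' ze' : V → ℝ, IsProb Y nu' → IsProb (bN G x Z) ze' →
          PP G a b c d q p w w' (bN G x X) Y (bN G x Z) nu' ze'
            ≤ Real.exp (-M) * PP G a b c d q p w w' X Y Z nu ze) →
        False

section basic
variable {V : Type} [DecidableEq V] {G : SimpleGraph V} [DecidableRel G.Adj]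

theorem prob_nonempty {Y : Finset V} {nu : V → ℝ} (h : IsProb Y nu) : Y.Nonempty := by
  rw [nonempty_iff_ne_empty]
  rintro rfl
  have := h.sum
  simp at this

/-- child of the blue step: the blue cliques -/
theorem NoB_child2 {l : ℕ} {X Z : Finset V} {x : V} (hx : x ∈ X) (h : NoB G (l + 1) (X ∪ Z)) :
    NoB G l (bN G x X ∪ bN G x Z) := by
  intro S hS hc
  have hadj : ∀ b ∈ S, Gᶜ.Adj x b := by
    intro b hb
    have := hS hb
    simp only [bN, mem_union, mem_filter] at this
    rw [SimpleGraph.compl_adj]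
    rcases this with h | h
    · exact ⟨h.2.1.symm, h.2.2⟩
    · exact ⟨h.2.1.symm, h.2.2⟩
  refine h (insert x S) ?_ (hc.insert hadj)
  intro z hz
  rw [mem_insert] at hz
  rcases hz with rfl | hz
  · exact mem_union_left _ hx
  · have := hS hz
    simp only [bN, mem_union, mem_filter] at this ⊢
    rcases this with h | h
    · exact Or.inl h.1
    · exact Or.inr h.1

end basic

/-- THE CLAIM, by induction on `k' + l'`. -/
theorem claim3 {a b c d q p L M ε e0 n0 : ℝ} {D w0 : ℕ} (ha : 0 < a) (hb : 0 < b) (hc : 0 < c)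
    (hd : 0 < d) (hq : 0 ≤ q) (hp : 0 ≤ p) (hL : 0 ≤ L) (hM : 0 ≤ M)
    (hε : 0 ≤ ε) (he : ε ≤ e0) (he2 : Real.exp (2 * ε) ≤ 1 + e0) (he0 : 0 < e0)
    (hloc : LocalAt a b c d q p L M e0 D w0)
    {R : ℕ} (hR : 1 ≤ R) (hR0 : w0 ≤ R)
    (hn1 : 1 ≤ n0) (hn0 : (4 * (R : ℝ) * Real.exp (2 * (ε * R))) ^ D / e0 ≤ n0)
    {V : Type} [DecidableEq V] (G : SimpleGraph V) [DecidableRel G.Adj]
    {X Y Z : Finset V} {N k l : ℕ} {E E' : ℝ}
    (hXN : X.card ≤ N) (hYN : Y.card ≤ N) (hZN : Z.card ≤ N)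
    (hRN : (a + b + c) * Real.log N ≤ a * ε / 2 * (R : ℝ) ^ 2)
    (hE0 : 0 ≤ E) (hE0' : 0 ≤ E')
    (hE : ∀ j ≤ k, ∀ Y' ⊆ Y, NoR G j Y' → (Y'.card : ℝ) ≤ E * Real.exp (j * (L / b)))
    (hE' : ∀ j ≤ l, ∀ Z' ⊆ Z, NoB G j Z' → (Z'.card : ℝ) ≤ E' * Real.exp (j * (M / c))) :
    ∀ n k' l' : ℕ, k' + l' ≤ n → k' ≤ k → l' ≤ l → ∀ X' ⊆ X, ∀ Y' ⊆ Y, ∀ Z' ⊆ Z,
      NoR G k' (X' ∪ Y') → NoB G l' (X' ∪ Z') → ∀ nu ze : V → ℝ, IsProb Y' nu → IsProb Z' ze →
      ∀ w w' : ℕ, R ≤ w → w ≤ 2 * R → R ≤ w' → w' ≤ 2 * R →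
      PP G a b c d q p w w' X' Y' Z' nu ze * Real.exp (-(pen a ε R w w')) ≤
        n0 ^ a * (E ^ b * E' ^ c * Real.exp (k' * L + l' * M)) := by
  intro n
  induction n with
  | zero =>
    intro k' l' hkl _ _ X' _ Y' _ Z' _ hR' _ nu ze _ _ w w' _ _ _ _
    have : k' = 0 := by omega
    subst this
    exact absurd hR' (not_NoR_zero _)
  | succ n ih =>
    intro k' l' hkl hk hl X' hX' Y' hY' Z' hZ' hNR hNB nu ze hnu hze w w' hw1 hw2 hw1' hw2'
    obtain _ | k'' := k'
    · exact absurd hNR (not_NoR_zero _)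
    obtain _ | l'' := l'
    · exact absurd hNB (not_NoB_zero _)
    by_contra hcon
    rw [not_le] at hcon
    have hYne := prob_nonempty hnu
    have hZne := prob_nonempty hze
    obtain ⟨v, v', nu1, ze1, hv1, hv2, hv1', hv2', hnu1, hze1, hmax⟩ :=
      exists_isMaxW (G := G) (a := a) (b := b) (c := c) (d := d) (q := q) (p := p) (ε := ε) ha hd R X'
        hYne hZne
    set B : ℝ := E ^ b * E' ^ c * Real.exp ((k'' + 1 : ℕ) * L + (l'' + 1 : ℕ) * M) with hBdef
    have hn0pos : 0 < n0 := lt_of_lt_of_le one_pos hn1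
    have hna : 1 ≤ n0 ^ a := Real.one_le_rpow hn1 ha.le
    have hB0 : 0 ≤ B := by
      rw [hBdef]
      exact mul_nonneg (mul_nonneg (Real.rpow_nonneg hE0 _) (Real.rpow_nonneg hE0' _))
        (Real.exp_pos _).le
    have hbig : n0 ^ a * B
        < PP G a b c d q p v v' X' Y' Z' nu1 ze1 * Real.exp (-(pen a ε R v v')) :=
      lt_of_lt_of_le hcon (hmax w w' nu ze hw1 hw2 hw1' hw2' hnu hze)
    have hpen0 : 0 ≤ pen a ε R v v' := by unfold pen; positivity
    have hpenle : Real.exp (-(pen a ε R v v')) ≤ 1 := by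
      rw [Real.exp_le_one_iff]; linarith
    have hPP0 := PP_nonneg G a b c d q p v v' X' Y' Z' nu1 ze1
    have hPPB : n0 ^ a * B < PP G a b c d q p v v' X' Y' Z' nu1 ze1 :=
      lt_of_lt_of_le hbig (mul_le_of_le_one_right hPP0 hpenle)
    have hPPpos : 0 < PP G a b c d q p v v' X' Y' Z' nu1 ze1 :=
      lt_of_le_of_lt (by positivity) hPPB
    have hSS0 := SS_nonneg G q p v v' X' Y' Z' nu1 ze1
    have hSpos : 0 < SS G q p v v' X' Y' Z' nu1 ze1 := by
      rcases hSS0.eq_or_lt with h0 | h0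
      · exfalso
        unfold PP at hPPpos
        rw [← h0, Real.zero_rpow ha.ne', mul_zero] at hPPpos
        exact lt_irrefl _ hPPpos
      · exact h0
    have hYc : (1 : ℝ) ≤ Y'.card := by exact_mod_cast hYne.card_pos
    have hZc : (1 : ℝ) ≤ Z'.card := by exact_mod_cast hZne.card_pos
    have hYcard : (Y'.card : ℝ) ≤ E * Real.exp ((k'' + 1 : ℕ) * (L / b)) :=
      hE (k'' + 1) hk Y' hY' (NoR_mono hNR subset_union_right)
    have hZcard : (Z'.card : ℝ) ≤ E' * Real.exp ((l'' + 1 : ℕ) * (M / c)) :=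
      hE' (l'' + 1) hl Z' hZ' (NoB_mono hNB subset_union_right)
    -- sizes of the two books
    have hYZ : Real.exp (b * Real.log Y'.card + c * Real.log Z'.card) ≤ B := by
      have e1 : Real.exp (b * Real.log Y'.card + c * Real.log Z'.card)
          = (Y'.card : ℝ) ^ b * (Z'.card : ℝ) ^ c := by
        rw [Real.exp_add, Real.rpow_def_of_pos (by linarith), Real.rpow_def_of_pos (by linarith),
          mul_comm b, mul_comm c]
      have e2 : (Y'.card : ℝ) ^ b ≤ E ^ b * Real.exp ((k'' + 1 : ℕ) * L) := by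
        have h1 := Real.rpow_le_rpow (by linarith) hYcard hb.le
        rw [Real.mul_rpow hE0 (Real.exp_pos _).le, ← Real.exp_mul] at h1
        have h2 : ((k'' + 1 : ℕ) : ℝ) * (L / b) * b = (k'' + 1 : ℕ) * L := by
          field_simp
        rwa [h2] at h1
      have e3 : (Z'.card : ℝ) ^ c ≤ E' ^ c * Real.exp ((l'' + 1 : ℕ) * M) := by
        have h1 := Real.rpow_le_rpow (by linarith) hZcard hc.le
        rw [Real.mul_rpow hE0' (Real.exp_pos _).le, ← Real.exp_mul] at h1
        have h2 : ((l'' + 1 : ℕ) : ℝ) * (M / c) * c = (l'' + 1 : ℕ) * M := by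
          field_simp
        rwa [h2] at h1
      rw [e1, hBdef, Real.exp_add]
      calc (Y'.card : ℝ) ^ b * (Z'.card : ℝ) ^ c
          ≤ (E ^ b * Real.exp ((k'' + 1 : ℕ) * L)) * (E' ^ c * Real.exp ((l'' + 1 : ℕ) * M)) :=
            mul_le_mul e2 e3 (Real.rpow_nonneg (by positivity) _)
              (mul_nonneg (Real.rpow_nonneg hE0 _) (Real.exp_pos _).le)
        _ = _ := by ring
    have hB1 : 1 ≤ B := by
      refine le_trans ?_ hYZ
      apply Real.one_le_exp
      have h1 := Real.log_nonneg hYc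
      have h2 := Real.log_nonneg hZc
      positivity
    -- (1) the sum is large
    have hSbig : n0 < SS G q p v v' X' Y' Z' nu1 ze1 := by
      by_contra hc'
      rw [not_lt] at hc'
      have h1 := PP_le G (a := a) (q := q) (p := p) ha hb hc hd (w := v) (w' := v') (X := X')
        hYne hZne hnu1 hze1 hc'
      have h2 : Real.exp (b * Real.log Y'.card + c * Real.log Z'.card) * n0 ^ a ≤ B * n0 ^ a :=
        mul_le_mul_of_nonneg_right hYZ (by linarith)
      linarith [mul_comm B (n0 ^ a)]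
    -- (2) trivial bound
    have hXc : (X'.card : ℝ) ≤ N := by exact_mod_cast (card_le_card hX').trans hXN
    have hYc' : (Y'.card : ℝ) ≤ N := by exact_mod_cast (card_le_card hY').trans hYN
    have hZc' : (Z'.card : ℝ) ≤ N := by exact_mod_cast (card_le_card hZ').trans hZN
    have hN1 : (1 : ℝ) ≤ N := hYc.trans hYc'
    have htriv : PP G a b c d q p v v' X' Y' Z' nu1 ze1
        ≤ Real.exp ((a + b + c) * Real.log N) := by
      have h1 := PP_le G (a := a) (q := q) (p := p) ha hb hc hd (w := v) (w' := v') (X := X')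
        hYne hZne hnu1 hze1 (SS_le_card G hq hp v v' (X := X') hnu1 hze1)
      refine h1.trans ?_
      have h2 : ((X'.card : ℝ)) ^ a ≤ Real.exp (a * Real.log N) := by
        have h3 := Real.rpow_le_rpow (by positivity) hXc ha.le
        refine h3.trans (le_of_eq ?_)
        rw [Real.rpow_def_of_pos (by linarith), mul_comm]
      have h4 : Real.exp (b * Real.log Y'.card + c * Real.log Z'.card)
          ≤ Real.exp (b * Real.log N + c * Real.log N) := by
        apply Real.exp_le_exp.mpr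
        have h5 := Real.log_le_log (by linarith) hYc'
        have h6 := Real.log_le_log (by linarith) hZc'
        have h7 := mul_le_mul_of_nonneg_left h5 hb.le
        have h8 := mul_le_mul_of_nonneg_left h6 hc.le
        linarith
      calc _ ≤ Real.exp (b * Real.log N + c * Real.log N) * Real.exp (a * Real.log N) :=
            mul_le_mul h4 h2 (Real.rpow_nonneg (by positivity) _) (Real.exp_pos _).le
        _ = _ := by rw [← Real.exp_add]; congr 1; ring
    have hedge : a * ε / 2 * (R : ℝ) ^ 2 ≤ pen a ε R v v' → False := by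
      intro hpen
      have h1 : PP G a b c d q p v v' X' Y' Z' nu1 ze1 * Real.exp (-(pen a ε R v v')) ≤ 1 := by
        calc _ ≤ Real.exp ((a + b + c) * Real.log N) * Real.exp (-(pen a ε R v v')) :=
              mul_le_mul_of_nonneg_right htriv (Real.exp_pos _).le
          _ = Real.exp ((a + b + c) * Real.log N + -(pen a ε R v v')) := by rw [Real.exp_add]
          _ ≤ 1 := by rw [Real.exp_le_one_iff]; linarith
      have h2 : (1 : ℝ) ≤ n0 ^ a * B := by
        calc (1 : ℝ) = 1 * 1 := by ring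
          _ ≤ _ := mul_le_mul hna hB1 zero_le_one (by positivity)
      linarith
    have hvR : R + 1 ≤ v := by
      rcases Nat.lt_or_ge R v with h | h
      · exact h
      · exfalso
        have : v = R := by omega
        subst this
        apply hedge
        unfold pen
        have h1 : (2 * (v : ℝ) - v) ^ 2 = (v : ℝ) ^ 2 := by ring
        rw [h1, mul_add]
        have h2 : 0 ≤ a * ε / 2 * (2 * (v : ℝ) - v') ^ 2 := by positivity
        linarith
    have hvR' : R + 1 ≤ v' := by
      rcases Nat.lt_or_ge R v' with h | h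
      · exact h
      · exfalso
        have : v' = R := by omega
        subst this
        apply hedge
        unfold pen
        have h1 : (2 * (v' : ℝ) - v') ^ 2 = (v' : ℝ) ^ 2 := by ring
        rw [h1, mul_add]
        have h2 : 0 ≤ a * ε / 2 * (2 * (v' : ℝ) - v) ^ 2 := by positivity
        linarith
    have hS : (4 * (R : ℝ) * Real.exp (2 * (ε * R))) ^ D
        ≤ e0 * SS G q p v v' X' Y' Z' nu1 ze1 := by
      rw [div_le_iff₀ he0] at hn0
      calc _ ≤ n0 * e0 := hn0
        _ ≤ _ := by rw [mul_comm]; exact mul_le_mul_of_nonneg_left hSbig.le he0.le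
    have hcancel : ∀ t u : ℝ, t * Real.exp (-(pen a ε R v v')) ≤ u →
        t ≤ u * Real.exp (pen a ε R v v') := by
      intro t u h
      have h1 := mul_le_mul_of_nonneg_right h (Real.exp_pos (pen a ε R v v')).le
      rwa [mul_assoc, ← Real.exp_add, neg_add_cancel, Real.exp_zero, mul_one] at h1
    have hbig2 : n0 ^ a * B * Real.exp (pen a ε R v v')
        ≤ PP G a b c d q p v v' X' Y' Z' nu1 ze1 := by
      have h1 := mul_le_mul_of_nonneg_right hbig.le (Real.exp_pos (pen a ε R v v')).le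
      rwa [mul_assoc (PP G a b c d q p v v' X' Y' Z' nu1 ze1), ← Real.exp_add, neg_add_cancel,
        Real.exp_zero, mul_one] at h1
    refine contra_of_local (G := G) (D := D) (w0 := w0) ha hq hp hε he he2 hloc hR hR0 hvR hv2 hvR' hv2'
      hnu1 hze1 hmax hSpos hS ?_ ?_
    · intro x hx nu' ze' hnu' hze'
      have h1 := ih k'' (l'' + 1) (by omega) (by omega) hl (rN G x X')
        ((rN_subset x X').trans hX') (rN G x Y') ((rN_subset x Y').trans hY') Z' hZ'
        (NoR_child hx hNR) (NoB_mono hNB (union_subset_union_left (rN_subset x X')))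
        nu' ze' hnu' hze' v v' hv1 hv2 hv1' hv2'
      have h2 := hcancel _ _ h1
      refine h2.trans ?_
      have e1 : Real.exp ((k'' : ℝ) * L + ((l'' + 1 : ℕ) : ℝ) * M) =
          Real.exp (-L) * Real.exp (((k'' + 1 : ℕ) : ℝ) * L + ((l'' + 1 : ℕ) : ℝ) * M) := by
        rw [← Real.exp_add]; congr 1; push_cast; ring
      rw [e1]
      calc n0 ^ a * (E ^ b * E' ^ c * (Real.exp (-L) *
              Real.exp (((k'' + 1 : ℕ) : ℝ) * L + ((l'' + 1 : ℕ) : ℝ) * M)))
              * Real.exp (pen a ε R v v')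
          = Real.exp (-L) * (n0 ^ a * B * Real.exp (pen a ε R v v')) := by rw [hBdef]; ring
        _ ≤ _ := mul_le_mul_of_nonneg_left hbig2 (Real.exp_pos _).le
    · intro x hx nu' ze' hnu' hze'
      have h1 := ih (k'' + 1) l'' (by omega) hk (by omega) (bN G x X')
        ((bN_subset x X').trans hX') Y' hY' (bN G x Z') ((bN_subset x Z').trans hZ')
        (NoR_mono hNR (union_subset_union_left (bN_subset x X'))) (NoB_child2 hx hNB)
        nu' ze' hnu' hze' v v' hv1 hv2 hv1' hv2'
      have h2 := hcancel _ _ h1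
      refine h2.trans ?_
      have e1 : Real.exp (((k'' + 1 : ℕ) : ℝ) * L + (l'' : ℝ) * M) =
          Real.exp (-M) * Real.exp (((k'' + 1 : ℕ) : ℝ) * L + ((l'' + 1 : ℕ) : ℝ) * M) := by
        rw [← Real.exp_add]; congr 1; push_cast; ring
      rw [e1]
      calc n0 ^ a * (E ^ b * E' ^ c * (Real.exp (-M) *
              Real.exp (((k'' + 1 : ℕ) : ℝ) * L + ((l'' + 1 : ℕ) : ℝ) * M)))
              * Real.exp (pen a ε R v v')
          = Real.exp (-M) * (n0 ^ a * B * Real.exp (pen a ε R v v')) := by rw [hBdef]; ring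
        _ ≤ _ := mul_le_mul_of_nonneg_left hbig2 (Real.exp_pos _).le


/-- lower bound for the sum at the root -/
theorem SS_unif_ge {V : Type} [DecidableEq V] {G : SimpleGraph V} [DecidableRel G.Adj]
    {q p η : ℝ} (hη : 0 < η) {X Y Z : Finset V} (hY : Y.Nonempty) (hZ : Z.Nonempty) (w w' : ℕ)
    (hdR : ∀ x ∈ X, (q + η) * Y.card ≤ ∑ y ∈ Y, rI G x y)
    (hdB : ∀ x ∈ X, (p + η) * Z.card ≤ ∑ z ∈ Z, bI G x z) :
    (X.card : ℝ) * η ^ (w + w') ≤ SS G q p w w' X Y Z (unif Y) (unif Z) := by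
  have hYc : (0 : ℝ) < Y.card := by exact_mod_cast hY.card_pos
  have hZc : (0 : ℝ) < Z.card := by exact_mod_cast hZ.card_pos
  unfold SS
  rw [← nsmul_eq_mul, ← sum_const]
  refine sum_le_sum fun x hx => ?_
  have h1 : η ≤ max (dR G Y (unif Y) x - q) 0 := by
    refine le_trans ?_ (le_max_left _ _)
    have e1 : dR G Y (unif Y) x = (∑ y ∈ Y, rI G x y) / Y.card := by
      unfold dR
      rw [sum_div]
      refine sum_congr rfl fun y hy => ?_
      simp only [unif, hy, if_true]
      ring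
    have h2 : q + η ≤ dR G Y (unif Y) x := by
      rw [e1, le_div_iff₀ hYc]
      exact hdR x hx
    linarith
  have h1' : η ≤ max (dB G Z (unif Z) x - p) 0 := by
    refine le_trans ?_ (le_max_left _ _)
    have e1 : dB G Z (unif Z) x = (∑ y ∈ Z, bI G x y) / Z.card := by
      unfold dB
      rw [sum_div]
      refine sum_congr rfl fun y hy => ?_
      simp only [unif, hy, if_true]
      ring
    have h2 : p + η ≤ dB G Z (unif Z) x := by
      rw [e1, le_div_iff₀ hZc]
      exact hdB x hx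
    linarith
  unfold wt
  rw [pow_add]
  exact mul_le_mul (pow_le_pow_left₀ hη.le h1 w) (pow_le_pow_left₀ hη.le h1' w')
    (by positivity) (by positivity)

/-- ROW G -/
theorem rowG : RowG := by
  intro a b c d q p L M ha hb hc hd hd1 hq hq1 hp hp1 hL hM hlocB η hη
  obtain ⟨e0, D, w0, he0, hw0, hloc⟩ := hlocB
  set ε : ℝ := Real.log (1 + e0) / 2 with hεdef
  have hε : 0 < ε := by
    have := Real.log_pos (show (1 : ℝ) < 1 + e0 by linarith)
    rw [hεdef]; linarith
  have he : ε ≤ e0 := by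
    have := Real.log_le_sub_one_of_pos (show (0 : ℝ) < 1 + e0 by linarith)
    rw [hεdef]; linarith
  have he2 : Real.exp (2 * ε) ≤ 1 + e0 := by
    have : 2 * ε = Real.log (1 + e0) := by rw [hεdef]; ring
    rw [this, Real.exp_log (by linarith)]
  set K : ℝ := Real.sqrt (2 * (a + b + c) / (a * ε)) with hK
  have hK0 : 0 ≤ K := Real.sqrt_nonneg _
  set F : ℝ := a * (D * (4 + 2 * ε) + 4 * |Real.log η|) with hF
  have hF0 : 0 ≤ F := by rw [hF]; positivity
  refine ⟨F * (w0 + 2 + K) + a * |Real.log e0|, by positivity, ?_⟩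
  intro V _ G _ X Y Z N k l E E' hX hY hZ hXN hYN hZN hNR hNB hE hE' hdR hdB
  have hXc : (1 : ℝ) ≤ X.card := by exact_mod_cast hX.card_pos
  have hYc : (1 : ℝ) ≤ Y.card := by exact_mod_cast hY.card_pos
  have hZc : (1 : ℝ) ≤ Z.card := by exact_mod_cast hZ.card_pos
  have hN1 : (1 : ℝ) ≤ N := by
    have : (X.card : ℝ) ≤ N := by exact_mod_cast hXN
    linarith
  set lam : ℝ := Real.log N with hlam
  have hlam0 : 0 ≤ lam := Real.log_nonneg hN1
  set R : ℕ := w0 + 1 + ⌈K * Real.sqrt lam⌉₊ with hR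
  have hR1 : 1 ≤ R := by omega
  have hR0 : w0 ≤ R := by omega
  have hRge : K * Real.sqrt lam ≤ R := by
    have h1 := Nat.le_ceil (K * Real.sqrt lam)
    have h2 : ((⌈K * Real.sqrt lam⌉₊ : ℕ) : ℝ) ≤ R := by
      rw [hR]; push_cast
      have : (0 : ℝ) ≤ w0 := Nat.cast_nonneg _
      linarith
    linarith
  have hRle : (R : ℝ) ≤ w0 + 2 + K * Real.sqrt lam := by
    have h1 : ((⌈K * Real.sqrt lam⌉₊ : ℕ) : ℝ) < K * Real.sqrt lam + 1 :=
      Nat.ceil_lt_add_one (by positivity)
    rw [hR]; push_cast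
    linarith
  have hRN : (a + b + c) * Real.log N ≤ a * ε / 2 * (R : ℝ) ^ 2 := by
    have h1 : (K * Real.sqrt lam) ^ 2 ≤ (R : ℝ) ^ 2 := pow_le_pow_left₀ (by positivity) hRge 2
    rw [mul_pow, Real.sq_sqrt hlam0, hK, Real.sq_sqrt (by positivity)] at h1
    have h2 := mul_le_mul_of_nonneg_left h1 (show 0 ≤ a * ε / 2 by positivity)
    have h3 : a * ε / 2 * (2 * (a + b + c) / (a * ε) * lam) = (a + b + c) * lam := by
      field_simp
    linarith
  set t : ℝ := (4 * (R : ℝ) * Real.exp (2 * (ε * R))) ^ D / e0 with ht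
  have hRpos : (1 : ℝ) ≤ R := by exact_mod_cast hR1
  have htpos : 0 < t := by rw [ht]; positivity
  have hk1 : 1 ≤ k := by
    rcases Nat.eq_zero_or_pos k with h0 | h0
    · subst h0; exact absurd hNR (not_NoR_zero _)
    · exact h0
  have hEk : (Y.card : ℝ) ≤ E * Real.exp (k * (L / b)) :=
    hE k le_rfl Y subset_rfl (NoR_mono hNR subset_union_right)
  have hEpos : 0 < E := by
    have h1 : 0 < E * Real.exp (k * (L / b)) := by linarith
    exact pos_of_mul_pos_left h1 (Real.exp_pos _).le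
  have hEk' : (Z.card : ℝ) ≤ E' * Real.exp (l * (M / c)) :=
    hE' l le_rfl Z subset_rfl (NoB_mono hNB subset_union_right)
  have hEpos' : 0 < E' := by
    have h1 : 0 < E' * Real.exp (l * (M / c)) := by linarith
    exact pos_of_mul_pos_left h1 (Real.exp_pos _).le
  have hclaim := claim3 (n0 := max 1 t) (D := D) (w0 := w0) ha hb hc hd hq.le hp.le hL hM hε.le he
    he2 he0 hloc hR1 hR0 (le_max_left _ _) (le_max_right _ _) G hXN hYN hZN hRN hEpos.le
    hEpos'.le hE hE' (k + l) k l le_rfl le_rfl le_rfl X subset_rfl Y subset_rfl Z subset_rfl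
    hNR hNB (unif Y) (unif Z) (isProb_unif hY) (isProb_unif hZ) (2 * R) (2 * R) (by omega) le_rfl
    (by omega) le_rfl
  have hpen : pen a ε R (2 * R) (2 * R) = 0 := by
    unfold pen; push_cast; ring
  rw [hpen, neg_zero, Real.exp_zero, mul_one] at hclaim
  have hSS := SS_unif_ge (G := G) (X := X) hη hY hZ (2 * R) (2 * R) hdR hdB
  have hηpow : 0 < η ^ (2 * R + 2 * R) := pow_pos hη _
  have hlow : Real.exp (b * Real.log Y.card + c * Real.log Z.card)
      * ((X.card : ℝ) * η ^ (2 * R + 2 * R)) ^ a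
      ≤ PP G a b c d q p (2 * R) (2 * R) X Y Z (unif Y) (unif Z) := by
    unfold PP
    rw [lsz_unif hY hd, lsz_unif hZ hd]
    exact mul_le_mul_of_nonneg_left (Real.rpow_le_rpow (by positivity) hSS ha.le)
      (Real.exp_pos _).le
  have hmain := hlow.trans hclaim
  have hn0 : 0 < max 1 t := lt_of_lt_of_le one_pos (le_max_left _ _)
  have hXpos : (0 : ℝ) < X.card := by linarith
  have hlog := Real.log_le_log (by positivity) hmain
  rw [Real.log_mul (Real.exp_pos _).ne' (by positivity), Real.log_exp,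
    Real.log_rpow (by positivity), Real.log_mul hXpos.ne' hηpow.ne', Real.log_pow,
    Real.log_mul (by positivity) (by positivity), Real.log_mul (by positivity) (by positivity),
    Real.log_mul (by positivity) (by positivity), Real.log_exp, Real.log_rpow hn0,
    Real.log_rpow hEpos, Real.log_rpow hEpos'] at hlog
  have hlogt : Real.log (max 1 t) ≤ D * ((4 + 2 * ε) * R) + |Real.log e0| := by
    rcases le_total 1 t with h1 | h1
    · rw [max_eq_right h1, ht, Real.log_div (by positivity) he0.ne', Real.log_pow,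
        Real.log_mul (by positivity) (by positivity), Real.log_exp]
      have h2 := Real.log_le_sub_one_of_pos (show (0 : ℝ) < 4 * R by linarith)
      have h3 := neg_abs_le (Real.log e0)
      have h4 : (D : ℝ) * (Real.log (4 * R) + 2 * (ε * R)) ≤ D * ((4 + 2 * ε) * R) := by
        apply mul_le_mul_of_nonneg_left _ (Nat.cast_nonneg _)
        linarith
      linarith
    · rw [max_eq_left h1, Real.log_one]; positivity
  have h7 : a * Real.log (max 1 t) ≤ a * (D * ((4 + 2 * ε) * R) + |Real.log e0|) :=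
    mul_le_mul_of_nonneg_left hlogt ha.le
  have h8 : -(a * (((2 * R + 2 * R : ℕ) : ℝ) * Real.log η)) ≤ a * (4 * R * |Real.log η|) := by
    have h9 := neg_abs_le (Real.log η)
    have h10 : (0 : ℝ) ≤ a * (4 * R) := by positivity
    have h11 := mul_le_mul_of_nonneg_left h9 h10
    push_cast
    linarith
  have h12 : F * R ≤ F * (w0 + 2 + K) * (1 + Real.sqrt lam) := by
    have h21 : F * (w0 + 2 + K) * (1 + Real.sqrt lam)
        = F * ((w0 + 2 + K) * (1 + Real.sqrt lam)) := by ring
    rw [h21]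
    apply mul_le_mul_of_nonneg_left _ hF0
    have h13 : 0 ≤ Real.sqrt lam := Real.sqrt_nonneg _
    have h14 : (0 : ℝ) ≤ w0 := Nat.cast_nonneg _
    have h15 : 0 ≤ (w0 : ℝ) * Real.sqrt lam := by positivity
    have h16 : ((w0 : ℝ) + 2 + K) * (1 + Real.sqrt lam)
        = w0 + 2 + K + w0 * Real.sqrt lam + 2 * Real.sqrt lam + K * Real.sqrt lam := by ring
    rw [h16]
    linarith
  have h17 : a * |Real.log e0| ≤ a * |Real.log e0| * (1 + Real.sqrt lam) := by
    have h13 : 0 ≤ Real.sqrt lam := Real.sqrt_nonneg _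
    have h18 : 0 ≤ a * |Real.log e0| := by positivity
    nlinarith
  have h19 : a * (D * ((4 + 2 * ε) * R) + |Real.log e0|) + a * (4 * R * |Real.log η|)
      = F * R + a * |Real.log e0| := by
    rw [hF]; ring
  have h20 : (F * (w0 + 2 + K) + a * |Real.log e0|) * (1 + Real.sqrt lam)
      = F * (w0 + 2 + K) * (1 + Real.sqrt lam) + a * |Real.log e0| * (1 + Real.sqrt lam) := by
    ring
  rw [h20]
  linarith

end Pool.Agent.H92.RM
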