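import Pool.Agent.H34.RM.Main
import Pool.Agent.H98.RM.Mirror
import Pool.Agent.H98.RM.Diag
import Pool.Agent.H56.Ramsey.TopT

/-!
Assembly of the root layer (MP_28724c_co).
-/

open Finset Pool.Agent.H92 Pool.Agent.H34.RM Pool.Agent.H98.RM Filter

namespace Pool.Agent.H92.RM

/-- The three set theorem. -/
theorem t3 : T3P Cert3P := Pool.Agent.H34.RM.t3

/-- The bootstrap over a finite family of lines. -/
theorem boot : Bootstrap3 CertI := bootstrap3 Pool.Agent.H56.Ramsey.t1I

/-- The diagonal step. -/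
theorem diag : DiagStep3 CertI := diagStep3 Pool.Agent.H56.Ramsey.t1I

/-- Eventual form of a diagonal bound. -/
theorem final {c0 C : ℝ} (h : GoodDiag c0) (hC : 0 < C) (h1 : c0 < Real.log C) :
    ∀ᶠ k : ℕ in atTop, (ramseyNumber k : ℝ) ≤ C ^ k :=
  eventually_ramseyNumber_le_pow_of_goodDiag h hC h1

end Pool.Agent.H92.RM
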